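import Pool.Agent.R71.GM.Struct

set_option autoImplicit false
set_option linter.unusedSectionVars false

/-!
# MP_114a18_co: when is `GR*_k(H) = GR_{k-1}(𝓗)`?

Equality holds for every `k ≥ 2` and every finite graph `H` with connected core (in particular for
every connected `H`), and for `k = 2` it holds for every graph.
-/

namespace Pool.Agent.Results.MP_114a18_co.ConnectedCore

open Finset Pool.Agent.R71.GM

/-- The graph of the edges of colour `i` (on the vertex set `Fin N`); `c x y` is the colour of the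
edge `xy`, values on the diagonal play no role. -/
def colourGraph {N k : ℕ} (c : Fin N → Fin N → Fin k) (hc : ∀ x y, c x y = c y x) (i : Fin k) :
    SimpleGraph (Fin N) where
  Adj x y := x ≠ y ∧ c x y = i
  symm := ⟨fun x y h => ⟨h.1.symm, by rw [hc]; exact h.2⟩⟩
  loopless := ⟨fun _ h => h.1 rfl⟩

/-- some triangle is rainbow -/
def HasRainbow {N k : ℕ} (c : Fin N → Fin N → Fin k) : Prop :=
  ∃ x y z, x ≠ y ∧ y ≠ z ∧ x ≠ z ∧ c x y ≠ c y z ∧ c y z ≠ c x z ∧ c x y ≠ c x z

/-- there is a monochromatic homomorphic copy of `H` -/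
def HasMonoCopy {W : Type} (H : SimpleGraph W) {N k : ℕ} (c : Fin N → Fin N → Fin k)
    (hc : ∀ x y, c x y = c y x) : Prop :=
  ∃ i : Fin k, Nonempty (H →g colourGraph c hc i)

/-- every Gallai-`k`-colouring of `K_N` contains a monochromatic homomorphic copy of `H` -/
def Forces {W : Type} (k : ℕ) (H : SimpleGraph W) (N : ℕ) : Prop :=
  ∀ (c : Fin N → Fin N → Fin k) (hc : ∀ x y, c x y = c y x), HasRainbow c ∨ HasMonoCopy H c hc

/-- every colouring of the vertices (`v`) and edges (`c`) of `K_N` with `k` colours has a rainbow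
triangle, or a monochromatic homomorphic copy of `H`, or an edge coloured like one of its ends -/
def StarForces {W : Type} (k : ℕ) (H : SimpleGraph W) (N : ℕ) : Prop :=
  ∀ (v : Fin N → Fin k) (c : Fin N → Fin N → Fin k) (hc : ∀ x y, c x y = c y x),
    HasRainbow c ∨ HasMonoCopy H c hc ∨ ∃ x y, x ≠ y ∧ (c x y = v x ∨ c x y = v y)

/-- `GR_k(𝓗)` -/
noncomputable def GR {W : Type} (k : ℕ) (H : SimpleGraph W) : ℕ := sInf {N | Forces k H N}

/-- `GR*_k(H)` -/
noncomputable def GRstar {W : Type} (k : ℕ) (H : SimpleGraph W) : ℕ := sInf {N | StarForces k H N}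

/-- `H` has a connected core: it is homomorphically equivalent to a connected finite graph. -/
def HasConnectedCore {W : Type} (H : SimpleGraph W) : Prop :=
  ∃ (W' : Type) (_ : Finite W') (H' : SimpleGraph W'), H'.Connected ∧
    Nonempty (H →g H') ∧ Nonempty (H' →g H)

section general

variable {V C : Type} [DecidableEq V] [DecidableEq C] {W : Type}

/-- no homomorphism from `H` to the colour class `e` inside `X` -/
def HF (H : SimpleGraph W) (c : V → V → C) (e : C) (X : Finset V) : Prop :=
  ¬ ∃ φ : W → V, (∀ w, φ w ∈ X) ∧ ∀ u w, H.Adj u w → φ u ≠ φ w ∧ c (φ u) (φ w) = e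

/-- Gallai colouring inside `X` -/
def GalOn (c : V → V → C) (X : Finset V) : Prop :=
  (∀ x ∈ X, ∀ y ∈ X, c x y = c y x) ∧
  ∀ x ∈ X, ∀ y ∈ X, ∀ z ∈ X, x ≠ y → y ≠ z → x ≠ z →
    (c x y = c y z ∨ c y z = c x z ∨ c x y = c x z)

/-- the conclusion of the recolouring claim -/
def Good (H : SimpleGraph W) (c : V → V → C) (S : Finset C) (X : Finset V) : Prop :=
  ∃ d, d ∉ S ∧ ∃ c' : V → V → C, GalOn c' X ∧ (∀ x ∈ X, ∀ y ∈ X, x ≠ y → c' x y ≠ d) ∧
    (∀ s ∈ S, ∀ x ∈ X, ∀ y ∈ X, x ≠ y → (c' x y = s ↔ c x y = s)) ∧ ∀ e, e ∉ S → HF H c' e X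

theorem HF_mono {H : SimpleGraph W} {c : V → V → C} {e : C} {X Y : Finset V} (hXY : X ⊆ Y)
    (h : HF H c e Y) : HF H c e X := by
  rintro ⟨φ, hφ, h'⟩
  exact h ⟨φ, fun w => hXY (hφ w), h'⟩

/-- gluing the recolourings of the parts of a homogeneous partition -/
theorem combine {H : SimpleGraph W} (hH : H.Connected) {c : V → V → C} (hG : Gal c)
    {S S' : Finset C} (hSS : S ⊆ S') {X : Finset V} {f : V → V} {d0 : V → V → C}
    (hX : X.Nonempty)
    (hcd : ∀ x ∈ X, ∀ y ∈ X, f x ≠ f y → c x y = d0 (f x) (f y))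
    (hS' : ∀ x ∈ X, ∀ y ∈ X, f x ≠ f y → c x y ∈ S')
    (hfree : ∀ e, e ∉ S → HF H c e X)
    (hparts : ∀ i ∈ X.image f, Good H c S' (X.filter (fun x => f x = i))) :
    Good H c S X := by
  classical
  unfold Good at hparts
  obtain ⟨x0, hx0⟩ := hX
  have : Nonempty C := ⟨c x0 x0⟩
  have : Nonempty V := ⟨x0⟩
  choose! dd hdd cc hcc using hparts
  set i0 := f x0 with hi0
  have hi0I : i0 ∈ X.image f := mem_image_of_mem f hx0
  set D := dd i0 with hD
  have hDS' : D ∉ S' := hdd i0 hi0I
  -- the new colouring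
  let c' : V → V → C := fun x y =>
    if f x = f y then Equiv.swap (dd (f x)) D (cc (f x) x y) else c x y
  have hin : ∀ x y, f x = f y → c' x y = Equiv.swap (dd (f x)) D (cc (f x) x y) := by
    intro x y h
    show (if _ then _ else _) = _
    rw [if_pos h]
  have hout : ∀ x y, f x ≠ f y → c' x y = c x y := by
    intro x y h
    show (if _ then _ else _) = _
    rw [if_neg h]
  have hI : ∀ x ∈ X, f x ∈ X.image f := fun x hx => mem_image_of_mem f hx
  have hmem : ∀ x ∈ X, ∀ y ∈ X, f x = f y → y ∈ X.filter (fun z => f z = f x) :=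
    fun x _ y hy h => mem_filter.2 ⟨hy, h.symm⟩
  have hself : ∀ x ∈ X, x ∈ X.filter (fun z => f z = f x) := fun x hx => mem_filter.2 ⟨hx, rfl⟩
  have hswapS : ∀ x ∈ X, ∀ s ∈ S', ∀ t : C, (Equiv.swap (dd (f x)) D t = s ↔ t = s) := by
    intro x hx s hs t
    have h1 : s ≠ dd (f x) := fun e => hdd (f x) (hI x hx) (e ▸ hs)
    have h2 : s ≠ D := fun e => hDS' (e ▸ hs)
    have h3 : Equiv.swap (dd (f x)) D s = s := Equiv.swap_apply_of_ne_of_ne h1 h2
    constructor
    · intro h
      rw [← h3] at h
      exact (Equiv.swap (dd (f x)) D).injective h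
    · intro h
      rw [h, h3]
  have hSpres : ∀ s ∈ S', ∀ x ∈ X, ∀ y ∈ X, x ≠ y → (c' x y = s ↔ c x y = s) := by
    intro s hs x hx y hy hxy
    by_cases h : f x = f y
    · rw [hin x y h, hswapS x hx s hs]
      exact (hcc (f x) (hI x hx)).2.2.1 s hs x (hself x hx) y (hmem x hx y hy h) hxy
    · rw [hout x y h]
  refine ⟨D, fun h => hDS' (hSS h), c', ⟨?_, ?_⟩, ?_, ?_, ?_⟩
  · intro x hx y hy
    by_cases h : f x = f y
    · rw [hin x y h, hin y x h.symm, ← h,
        (hcc (f x) (hI x hx)).1.1 x (hself x hx) y (hmem x hx y hy h)]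
    · rw [hout x y h, hout y x (Ne.symm h), hG.1]
  · intro x hx y hy z hz h1 h2 h3
    by_cases a1 : f x = f y
    · by_cases a2 : f y = f z
      · rw [hin x y a1, hin y z a2, hin x z (a1.trans a2), ← a1]
        have := (hcc (f x) (hI x hx)).1.2 x (hself x hx) y (hmem x hx y hy a1) z
          (hmem x hx z hz (a1.trans a2)) h1 h2 h3
        rcases this with h | h | h
        · left; rw [h]
        · right; left; rw [h]
        · right; right; rw [h]
      · right; left
        have a3 : f x ≠ f z := by rw [a1]; exact a2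
        rw [hout y z a2, hout x z a3, hcd y hy z hz a2, hcd x hx z hz a3, a1]
    · by_cases a2 : f y = f z
      · right; right
        have a3 : f x ≠ f z := by rw [← a2]; exact a1
        rw [hout x y a1, hout x z a3, hcd x hx y hy a1, hcd x hx z hz a3, a2]
      · by_cases a3 : f x = f z
        · left
          rw [hout x y a1, hout y z a2, hG.1 x y, hcd y hy x hx (Ne.symm a1), hcd y hy z hz a2, a3]
        · rw [hout x y a1, hout y z a2, hout x z a3]
          exact hG.2 x y z h1 h2 h3
  · intro x hx y hy hxy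
    by_cases h : f x = f y
    · rw [hin x y h]
      intro he
      have h1 : cc (f x) x y = dd (f x) := by
        have h2 : Equiv.swap (dd (f x)) D (dd (f x)) = D := Equiv.swap_apply_left _ _
        exact (Equiv.swap (dd (f x)) D).injective (he.trans h2.symm)
      exact (hcc (f x) (hI x hx)).2.1 x (hself x hx) y (hmem x hx y hy h) hxy h1
    · rw [hout x y h]
      intro he
      exact hDS' (he ▸ hS' x hx y hy h)
  · intro s hs x hx y hy hxy
    exact hSpres s (hSS hs) x hx y hy hxy
  · intro e he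
    by_cases heS' : e ∈ S'
    · rintro ⟨φ, hφ, hφ'⟩
      refine hfree e he ⟨φ, hφ, fun u w huw => ⟨(hφ' u w huw).1, ?_⟩⟩
      exact (hSpres e heS' _ (hφ u) _ (hφ w) (hφ' u w huw).1).1 (hφ' u w huw).2
    · rintro ⟨φ, hφ, hφ'⟩
      -- all of `H` lies in one part
      have hadj : ∀ u w, H.Adj u w → f (φ u) = f (φ w) := by
        intro u w huw
        by_contra hne
        have h1 := (hφ' u w huw).2
        rw [hout _ _ hne] at h1
        exact heS' (h1 ▸ hS' _ (hφ u) _ (hφ w) hne)
      obtain ⟨w0⟩ := hH.nonempty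
      have hall : ∀ w, f (φ w) = f (φ w0) := by
        intro w
        obtain ⟨p⟩ := hH.preconnected w w0
        induction p with
        | nil => rfl
        | cons h _ ih => exact (hadj _ _ h).trans ih
      set i := f (φ w0) with hi
      have hiI : i ∈ X.image f := hI _ (hφ w0)
      set e' := Equiv.swap (dd i) D e with he'
      have he'S' : e' ∉ S' := by
        rw [he']
        by_cases h1 : e = dd i
        · rw [h1, Equiv.swap_apply_left]; exact hDS'
        · by_cases h2 : e = D
          · rw [h2, Equiv.swap_apply_right]; exact hdd i hiI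
          · rw [Equiv.swap_apply_of_ne_of_ne h1 h2]; exact heS'
      refine (hcc i hiI).2.2.2 e' he'S' ⟨φ, fun w => mem_filter.2 ⟨hφ w, hall w⟩, ?_⟩
      intro u w huw
      refine ⟨(hφ' u w huw).1, ?_⟩
      have h1 := (hφ' u w huw).2
      rw [hin _ _ (hadj u w huw), hall u] at h1
      rw [he', ← h1, Equiv.swap_apply_self]

/-- the recolouring claim -/
theorem claim {H : SimpleGraph W} (hH : H.Connected) {c : V → V → C} (hG : Gal c) {v : V → C} :
    ∀ (n : ℕ) (X : Finset V) (S : Finset C), X.card = n → X.Nonempty → (∀ x ∈ X, v x ∉ S) →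
      (∀ x ∈ X, ∀ y ∈ X, x ≠ y → c x y ≠ v x) → (∀ e, e ∉ S → HF H c e X) → Good H c S X := by
  intro n
  induction n using Nat.strong_induction_on with
  | _ n ih =>
    intro X S hXn hX hvS hcv hfree
    by_cases h1 : X.card ≤ 1
    · -- a single vertex
      obtain ⟨x0, hx0⟩ := hX
      have hone : ∀ x ∈ X, ∀ y ∈ X, x = y := fun x hx y hy => card_le_one.1 h1 x hx y hy
      exact ⟨v x0, hvS x0 hx0, c, ⟨fun x _ y _ => hG.1 x y, fun x _ y _ z _ a b d => hG.2 x y z a b d⟩,
        fun x hx y hy hxy => absurd (hone x hx y hy) hxy, fun s _ x _ y _ _ => Iff.rfl, hfree⟩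
    · have h2 : 2 ≤ X.card := by omega
      -- a homogeneous partition with a protected set of colours
      have key : ∃ (S' : Finset C) (f : V → V) (d0 : V → V → C), S ⊆ S' ∧
          (∀ x ∈ X, ∀ y ∈ X, f x ≠ f y → c x y = d0 (f x) (f y)) ∧
          (∀ x ∈ X, ∀ y ∈ X, f x ≠ f y → c x y ∈ S') ∧
          (∀ x ∈ X, v x ∉ S') ∧ (∀ x ∈ X, ∃ y ∈ X, f y ≠ f x) := by
        rcases gallai_struct hG h2 with ⟨A, B, hA, hB, hd, hu, b, hb⟩ |
          ⟨f, d, r, b, hrb, hcd, hd, h2', hnb⟩
        · obtain ⟨a0, ha0⟩ := hA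
          obtain ⟨b0, hb0⟩ := hB
          have hab : a0 ≠ b0 := fun e => disjoint_left.1 hd ha0 (e ▸ hb0)
          refine ⟨insert b S, fun x => if x ∈ A then a0 else b0, fun _ _ => b,
            subset_insert _ _, ?_, ?_, ?_, ?_⟩
          · intro x hx y hy hxy
            rw [← hu, mem_union] at hx hy
            by_cases hxA : x ∈ A
            · by_cases hyA : y ∈ A
              · simp [hxA, hyA] at hxy
              · rcases hy with hy | hy
                · exact absurd hy hyA
                · exact hb x hxA y hy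
            · rcases hx with hx | hx
              · exact absurd hx hxA
              · by_cases hyA : y ∈ A
                · rw [hG.1]; exact hb y hyA x hx
                · simp [hxA, hyA] at hxy
          · intro x hx y hy hxy
            rw [← hu, mem_union] at hx hy
            refine mem_insert.2 (Or.inl ?_)
            by_cases hxA : x ∈ A
            · by_cases hyA : y ∈ A
              · simp [hxA, hyA] at hxy
              · rcases hy with hy | hy
                · exact absurd hy hyA
                · exact hb x hxA y hy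
            · rcases hx with hx | hx
              · exact absurd hx hxA
              · by_cases hyA : y ∈ A
                · rw [hG.1]; exact hb y hyA x hx
                · simp [hxA, hyA] at hxy
          · intro x hx hxS
            rcases mem_insert.1 hxS with h | h
            · have hx' := hx
              rw [← hu, mem_union] at hx'
              rcases hx' with hxA | hxB
              · exact hcv x hx b0 (hu ▸ mem_union_right _ hb0)
                  (fun e => disjoint_left.1 hd hxA (e ▸ hb0)) ((hb x hxA b0 hb0).trans h.symm)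
              · exact hcv x hx a0 (hu ▸ mem_union_left _ ha0)
                  (fun e => disjoint_left.1 hd ha0 (e ▸ hxB))
                  ((hG.1 x a0).trans ((hb a0 ha0 x hxB).trans h.symm))
            · exact hvS x hx h
          · intro x hx
            by_cases hxA : x ∈ A
            · refine ⟨b0, hu ▸ mem_union_right _ hb0, ?_⟩
              have : b0 ∉ A := fun h => disjoint_left.1 hd h hb0
              simp [hxA, this, hab.symm]
            · refine ⟨a0, hu ▸ mem_union_left _ ha0, ?_⟩
              simp [hxA, ha0, hab]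
        · refine ⟨insert r (insert b S), f, d, (subset_insert _ _).trans (subset_insert _ _),
            hcd, ?_, ?_, ?_⟩
          · intro x hx y hy hxy
            rw [hcd x hx y hy hxy]
            rcases h2' _ (mem_image_of_mem f hx) _ (mem_image_of_mem f hy) hxy with h | h
            · exact mem_insert.2 (Or.inl h)
            · exact mem_insert.2 (Or.inr (mem_insert.2 (Or.inl h)))
          · intro x hx hxS
            have hne : ∀ k : C, (∃ j ∈ X.image f, j ≠ f x ∧ d (f x) j = k) → v x ≠ k := by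
              rintro k ⟨j, hj, hjx, hdj⟩ hvk
              obtain ⟨y, hy, rfl⟩ := mem_image.1 hj
              have hxy : x ≠ y := fun e => hjx (by rw [e])
              exact hcv x hx y hy hxy (by rw [hcd x hx y hy (Ne.symm hjx), hdj, hvk])
            rcases mem_insert.1 hxS with h | h
            · exact hne r (hnb _ (mem_image_of_mem f hx)).1 h
            · rcases mem_insert.1 h with h | h
              · exact hne b (hnb _ (mem_image_of_mem f hx)).2 h
              · exact hvS x hx h
          · intro x hx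
            obtain ⟨⟨j, hj, hjx, _⟩, _⟩ := hnb _ (mem_image_of_mem f hx)
            obtain ⟨y, hy, rfl⟩ := mem_image.1 hj
            exact ⟨y, hy, hjx⟩
      obtain ⟨S', f, d0, hSS, hcd, hS', hvS', hother⟩ := key
      refine combine hH hG hSS hX hcd hS' hfree ?_
      intro i hi
      obtain ⟨x, hx, rfl⟩ := mem_image.1 hi
      have hsub : X.filter (fun z => f z = f x) ⊆ X := filter_subset _ _
      have hlt : (X.filter (fun z => f z = f x)).card < n := by
        rw [← hXn]
        obtain ⟨y, hy, hyx⟩ := hother x hx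
        refine card_lt_card ⟨hsub, fun h => ?_⟩
        exact hyx (mem_filter.1 (h hy)).2
      exact ih _ hlt _ S' rfl ⟨x, mem_filter.2 ⟨hx, rfl⟩⟩ (fun z hz => hvS' z (hsub hz))
        (fun z hz y hy => hcv z (hsub hz) y (hsub hy))
        (fun e he => HF_mono hsub (hfree e (fun h => he (hSS h))))

end general

theorem hasMonoCopy_equiv {W W' : Type} {H : SimpleGraph W} {H' : SimpleGraph W'}
    (h1 : Nonempty (H →g H')) (h2 : Nonempty (H' →g H)) {N k : ℕ} (c : Fin N → Fin N → Fin k)
    (hc : ∀ x y, c x y = c y x) : HasMonoCopy H c hc ↔ HasMonoCopy H' c hc := by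
  obtain ⟨f⟩ := h1
  obtain ⟨g⟩ := h2
  constructor
  · rintro ⟨i, ⟨φ⟩⟩
    exact ⟨i, ⟨φ.comp g⟩⟩
  · rintro ⟨i, ⟨φ⟩⟩
    exact ⟨i, ⟨φ.comp f⟩⟩

/-- the easy direction -/
theorem star_imp {W : Type} {H : SimpleGraph W} {k N : ℕ} (hk : 2 ≤ k)
    (h : StarForces k H N) : Forces (k - 1) H N := by
  intro c hc
  have hlt : ∀ x y, ((c x y : Fin (k - 1)) : ℕ) < k := fun x y => by
    have := (c x y).2; omega
  let c' : Fin N → Fin N → Fin k := fun x y => ⟨c x y, hlt x y⟩
  have hval : ∀ x y x' y', c' x y = c' x' y' ↔ c x y = c x' y' := by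
    intro x y x' y'
    rw [Fin.ext_iff, Fin.ext_iff]
  have hc' : ∀ x y, c' x y = c' y x := fun x y => (hval x y y x).2 (hc x y)
  rcases h (fun _ => ⟨k - 1, by omega⟩) c' hc' with h | h | h
  · left
    obtain ⟨x, y, z, h1, h2, h3, h4, h5, h6⟩ := h
    exact ⟨x, y, z, h1, h2, h3, fun e => h4 ((hval _ _ _ _).2 e), fun e => h5 ((hval _ _ _ _).2 e),
      fun e => h6 ((hval _ _ _ _).2 e)⟩
  · right
    obtain ⟨i, ⟨φ⟩⟩ := h
    by_cases hi : (i : ℕ) < k - 1
    · refine ⟨⟨i, hi⟩, ⟨⟨φ, fun {a b} hab => ?_⟩⟩⟩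
      have := φ.map_rel hab
      refine ⟨this.1, ?_⟩
      have h2 : ((c' (φ a) (φ b) : Fin k) : ℕ) = i := by rw [this.2]
      exact Fin.ext h2
    · -- no edge has colour `i`, so `H` has no edge
      have hno : ∀ a b, ¬ H.Adj a b := by
        intro a b hab
        have := φ.map_rel hab
        have h2 : ((c' (φ a) (φ b) : Fin k) : ℕ) = i := by rw [this.2]
        have h3 := (c (φ a) (φ b)).2
        have h4 : ((c' (φ a) (φ b) : Fin k) : ℕ) = (c (φ a) (φ b) : ℕ) := rfl
        omega
      exact ⟨⟨0, by omega⟩, ⟨⟨φ, fun {a b} hab => absurd hab (hno a b)⟩⟩⟩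
  · exfalso
    obtain ⟨x, y, _, h | h⟩ := h
    · have h2 : ((c' x y : Fin k) : ℕ) = k - 1 := by rw [h]
      have h3 := (c x y).2
      have h4 : ((c' x y : Fin k) : ℕ) = (c x y : ℕ) := rfl
      omega
    · have h2 : ((c' x y : Fin k) : ℕ) = k - 1 := by rw [h]
      have h3 := (c x y).2
      have h4 : ((c' x y : Fin k) : ℕ) = (c x y : ℕ) := rfl
      omega

/-- from a colouring missing a colour to a colouring with one colour less -/
theorem drop_colour {W : Type} {H : SimpleGraph W} {k N : ℕ} (hk : 2 ≤ k) {d : Fin k}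
    {c' : Fin N → Fin N → Fin k} (hG : GalOn c' univ) (hd : ∀ x y, x ≠ y → c' x y ≠ d)
    (hfree : ∀ e, HF H c' e univ) : ¬ Forces (k - 1) H N := by
  intro hF
  -- an injection of the colours other than `d`
  let g : Fin k → Fin (k - 1) := fun e => if (e : ℕ) < d then ⟨min e (k - 2), by omega⟩ else
    ⟨e - 1, by have := e.2; omega⟩
  have hg : ∀ e e', e ≠ d → e' ≠ d → g e = g e' → e = e' := by
    intro e e' h1 h2 h
    have h1' : (e : ℕ) ≠ d := fun h => h1 (Fin.ext h)
    have h2' : (e' : ℕ) ≠ d := fun h => h2 (Fin.ext h)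
    have hdk := d.2
    have hek := e.2
    have hek' := e'.2
    simp only [g] at h
    apply Fin.ext
    split_ifs at h <;> rw [Fin.mk.injEq] at h <;> omega
  let c : Fin N → Fin N → Fin (k - 1) := fun x y => g (c' x y)
  have hc : ∀ x y, c x y = c y x := fun x y => by
    show g _ = g _
    rw [hG.1 x (mem_univ _) y (mem_univ _)]
  rcases hF c hc with ⟨x, y, z, h1, h2, h3, h4, h5, h6⟩ | ⟨i, ⟨φ⟩⟩
  · rcases hG.2 x (mem_univ _) y (mem_univ _) z (mem_univ _) h1 h2 h3 with h | h | h
    · exact h4 (congrArg g h)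
    · exact h5 (congrArg g h)
    · exact h6 (congrArg g h)
  · by_cases hedge : ∃ a b, H.Adj a b
    · obtain ⟨a, b, hab⟩ := hedge
      have h0 := φ.map_rel hab
      refine hfree (c' (φ a) (φ b)) ⟨φ, fun _ => mem_univ _, fun u w huw => ?_⟩
      have h1 := φ.map_rel huw
      refine ⟨h1.1, hg _ _ (hd _ _ h1.1) (hd _ _ h0.1) ?_⟩
      exact h1.2.trans h0.2.symm
    · push Not at hedge
      exact hfree d ⟨φ, fun _ => mem_univ _, fun u w huw => absurd huw (hedge u w)⟩

theorem main_dir {W : Type} {H : SimpleGraph W} {k N : ℕ} (hk : 2 ≤ k)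
    (hH : k = 2 ∨ HasConnectedCore H) (hF : Forces (k - 1) H N) : StarForces k H N := by
  intro v c hc
  by_contra hcon
  push Not at hcon
  obtain ⟨hrain, hmono, hconf⟩ := hcon
  have hGal : Gal c := by
    refine ⟨hc, fun x y z h1 h2 h3 => ?_⟩
    by_contra hh
    push Not at hh
    exact hrain ⟨x, y, z, h1, h2, h3, hh.1, hh.2.1, hh.2.2⟩
  have hHF : ∀ e, HF H c e univ := by
    rintro e ⟨φ, _, hφ⟩
    exact hmono ⟨e, ⟨⟨φ, fun {a b} hab => hφ a b hab⟩⟩⟩
  rcases Nat.eq_zero_or_pos N with hN | hN
  · -- empty vertex set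
    subst hN
    refine drop_colour (d := ⟨0, by omega⟩) hk ⟨fun x => x.elim0, fun x => x.elim0⟩
      (fun x => x.elim0) hHF hF
  have hne : (univ : Finset (Fin N)).Nonempty := ⟨⟨0, hN⟩, mem_univ _⟩
  rcases hH with h2 | ⟨W', _, H', hconn, h12, h21⟩
  · subst h2
    -- all vertices have the same colour
    have hsame : ∀ x y, v x = v y := by
      intro x y
      by_cases hxy : x = y
      · rw [hxy]
      · have h1 := hconf x y hxy
        obtain ⟨a, b⟩ := h1
        have key : ∀ p q r : Fin 2, p ≠ q → p ≠ r → q = r := by decide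
        exact key _ _ _ a b
    refine drop_colour (d := v ⟨0, hN⟩) hk (c' := c) ⟨fun x _ y _ => hc x y,
      fun x _ y _ z _ a b d => hGal.2 x y z a b d⟩ ?_ hHF hF
    intro x y hxy
    rw [hsame ⟨0, hN⟩ x]
    exact (hconf x y hxy).1
  · have hHF' : ∀ e, HF H' c e univ := by
      rintro e ⟨φ, _, hφ⟩
      apply hmono
      rw [hasMonoCopy_equiv h12 h21]
      exact ⟨e, ⟨⟨φ, fun {a b} hab => hφ a b hab⟩⟩⟩
    obtain ⟨d, _, c', hG', hd', _, hfree'⟩ := claim hconn hGal (v := v) N univ ∅
      (by rw [card_univ, Fintype.card_fin]) hne (fun _ _ => notMem_empty _)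
      (fun x _ y _ hxy => (hconf x y hxy).1) (fun e _ => hHF' e)
    refine drop_colour (d := d) hk hG' (fun x y hxy => hd' x (mem_univ _) y (mem_univ _) hxy) ?_ hF
    obtain ⟨g⟩ := h21
    rintro e ⟨φ, _, hφ⟩
    exact hfree' e (notMem_empty _) ⟨fun w => φ (g w), fun _ => mem_univ _,
      fun u w huw => hφ _ _ (g.map_rel huw)⟩

/-- **Main result.**  For every `k ≥ 2` and every finite graph `H` with connected core (for `k = 2`:
every finite graph `H`) we have `GR*_k(H) = GR_{k-1}(𝓗)`; in fact the two defining properties agree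
for every `N`. -/
theorem result : ∀ (k : ℕ) (W : Type) (_ : Finite W) (H : SimpleGraph W), 2 ≤ k →
    (k = 2 ∨ HasConnectedCore H) →
    (∀ N, StarForces k H N ↔ Forces (k - 1) H N) ∧ GRstar k H = GR (k - 1) H := by
  intro k W _ H hk hH
  have h : ∀ N, StarForces k H N ↔ Forces (k - 1) H N :=
    fun N => ⟨star_imp hk, main_dir hk hH⟩
  refine ⟨h, ?_⟩
  unfold GRstar GR
  congr 1
  ext N
  exact h N

end Pool.Agent.Results.MP_114a18_co.ConnectedCore
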